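import Pool.Agent.Lib.MP_6d445e_gt.Iface2

/-!
Module PPMIL (helper96): Miller forcing preserves the P-point.
-/

set_option autoImplicit false

universe u v w

open Cardinal Filter

namespace Pool.Agent.Lib.MP_6d445e_gt.H96

open Pool.Agent.Lib.MP_100a6c_lc
open Pool.Agent.Lib.MP_c5d73d_lc.F (pr)
open Pool.Agent.Lib.MP_e6fef2_lc

section ce

variable {A C : Type u} [CompleteBooleanAlgebra A] [CompleteBooleanAlgebra C] {f : A → C}

theorem ce_top (hf : IsCE f) : f ⊤ = ⊤ := (all_alg A C f hf).1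
theorem ce_bot (hf : IsCE f) : f ⊥ = ⊥ := (all_alg A C f hf).2.1
theorem ce_inf (hf : IsCE f) (a b : A) : f (a ⊓ b) = f a ⊓ f b := (all_alg A C f hf).2.2.1 a b
theorem ce_sup (hf : IsCE f) (a b : A) : f (a ⊔ b) = f a ⊔ f b := (all_alg A C f hf).2.2.2.1 a b
theorem ce_le (hf : IsCE f) {a b : A} : f a ≤ f b ↔ a ≤ b := (all_alg A C f hf).2.2.2.2.1 a b
theorem prj_le (hf : IsCE f) {c : C} {a : A} : prj f c ≤ a ↔ c ≤ f a :=
  (all_alg A C f hf).2.2.2.2.2.2.2.2.2.2.1 c a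
theorem le_prj (hf : IsCE f) (c : C) : c ≤ f (prj f c) := (prj_le hf).1 le_rfl
theorem prj_mono (hf : IsCE f) {c d : C} (h : c ≤ d) : prj f c ≤ prj f d :=
  (prj_le hf).2 (h.trans (le_prj hf d))
theorem prj_inf (hf : IsCE f) (c : C) (a : A) : prj f (c ⊓ f a) = prj f c ⊓ a :=
  (all_alg A C f hf).2.2.2.2.2.2.2.2.2.2.2.2.2.2.2.2.1 c a
theorem prj_bot (hf : IsCE f) (c : C) : prj f c = ⊥ ↔ c = ⊥ :=
  (all_alg A C f hf).2.2.2.2.2.2.2.2.2.2.2.2.2.2.2.2.2.1 c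
theorem prj_sSup (hf : IsCE f) (s : Set C) : prj f (sSup s) = ⨆ c ∈ s, prj f c :=
  (all_alg A C f hf).2.2.2.2.2.2.2.2.2.2.2.2.2.2.2.1 s

theorem prj_iSup (hf : IsCE f) {J : Sort*} (c : J → C) : prj f (⨆ j, c j) = ⨆ j, prj f (c j) := by
  rw [iSup, prj_sSup hf]
  apply le_antisymm
  · refine iSup₂_le fun c' hc' => ?_
    obtain ⟨j, rfl⟩ := hc'
    exact le_iSup (fun j => prj f (c j)) j
  · exact iSup_le fun j => le_iSup₂_of_le (c j) ⟨j, rfl⟩ le_rfl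

end ce

/-- The hypotheses about interpretations and Miller forcing. -/
structure Hy (A : Type u) [CompleteBooleanAlgebra A] : Prop where
  lb : LbStatement.{u}
  itp : ItpStatement.{u}
  tree : TreeStatement.{u}
  lp : LpStatement.{u}
  mxf : MxfStatement.{u}
  nd : NdStatement.{u}

section

variable {A : Type u} [CompleteBooleanAlgebra A]

theorem mE_ce (hnd : NdStatement.{u}) : IsCE (mE A) := by
  have : Nonempty (MX A) := (hnd A).1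
  exact (all_tw1 A (MX A) (MQ A)).1

theorem fo_iff (hmx : MxfStatement.{u}) (τ : MX A) (c : MC A) (a : A) :
    a ≤ fo τ c ↔ mE A a ⊓ mG τ ≤ c := (hmx A).2.2.2.2.2.1 τ c a

theorem fo_mono (hmx : MxfStatement.{u}) (τ : MX A) {c d : MC A} (h : c ≤ d) : fo τ c ≤ fo τ d :=
  (fo_iff hmx τ d _).2 (((fo_iff hmx τ c _).1 le_rfl).trans h)

theorem fo_le (hmx : MxfStatement.{u}) (τ : MX A) (c : MC A) : mE A (fo τ c) ⊓ mG τ ≤ c :=
  (fo_iff hmx τ c _).1 le_rfl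

/-- the value of a state. -/
noncomputable def stv (ι : H1.RO Sw.{u} → A) (x : ℕ → MC A) (t : List ℕ) (τ : MX A) (z : ℕ → A) :
    A :=
  stm τ t ⊓ itp (mE A) (lp t) (mG τ) x z ⊓ pos ι z

/-- Below `c₁` every condition has admissible limit interpretations. -/
def Hx (ι : H1.RO Sw.{u} → A) (x : ℕ → MC A) (c₁ : MC A) : Prop :=
  ∀ c ≤ c₁, prj (mE A) c ≤ ⨆ s : List ℕ × MX A × (ℕ → A), fo s.2.1 c ⊓ stv ι x s.1 s.2.1 s.2.2

/-- The dichotomy. -/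
theorem dicho (hlb : LbStatement.{u}) (hitp : ItpStatement.{u}) (htree : TreeStatement.{u})
    (hlp : LpStatement.{u}) (hmx : MxfStatement.{u}) (hnd : NdStatement.{u})
    (ι : H1.RO Sw.{u} → A) (hPP : PP ι) (x : ℕ → MC A) (c₀ : MC A) (hc₀ : c₀ ≠ ⊥) :
    ∃ c₁ ≤ c₀, c₁ ≠ ⊥ ∧ (Hx ι x c₁ ∨ Hx ι (cpl x) c₁) := by
  have hce : IsCE (mE A) := mE_ce hnd
  obtain ⟨-, -, -, -, hpi⟩ := hitp A (MC A) (mE A) hce
  by_cases hbad : ∃ c₁ ≤ c₀, c₁ ≠ ⊥ ∧ ∀ c' ≤ c₁, ∀ t z,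
      itp (mE A) (lp t) c' x z ⊓ pos ι z = ⊥
  · obtain ⟨c₁, hc₁, hc₁', hb⟩ := hbad
    refine ⟨c₁, hc₁, hc₁', Or.inr ?_⟩
    intro c hc
    rw [(hlp A).2.1 c]
    refine iSup_le fun t => ?_
    obtain ⟨z, hz, -⟩ := hlb A (MC A) (mE A) hce (lp t) ((hlp A).1 t) c x (fun _ => ⊥)
    obtain ⟨-, -, -, -, -, -, hcpl, -, -⟩ := hpi (lp t) ((hlp A).1 t)
    set I := itp (mE A) (lp t) c (cpl x) (cpl z) with hI
    have e1 : I = itp (mE A) (lp t) c x z := hcpl c x z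
    obtain ⟨τ, h1, h2, h3⟩ := htree A t c (cpl x) (cpl z)
    have h4 : I ≤ pos ι (cpl z) := by
      have h5 := hb c hc t z
      rw [← e1] at h5
      have h6 : I ≤ pos ι z ⊔ pos ι (cpl z) := by rw [hPP z]; exact le_top
      calc I = I ⊓ (pos ι z ⊔ pos ι (cpl z)) := (inf_eq_left.2 h6).symm
        _ = (I ⊓ pos ι z) ⊔ (I ⊓ pos ι (cpl z)) := inf_sup_left _ _ _
        _ ≤ pos ι (cpl z) := by rw [h5, bot_sup_eq]; exact inf_le_right
    rw [← e1] at hz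
    refine hz.trans ?_
    refine le_trans ?_ (le_iSup _ (t, τ, cpl z))
    exact le_inf ((fo_iff hmx τ c I).2 h1) (le_inf (le_inf h2 h3) h4)
  · refine ⟨c₀, le_rfl, hc₀, Or.inl ?_⟩
    intro c hc
    by_contra hcon
    set R := ⨆ s : List ℕ × MX A × (ℕ → A), fo s.2.1 c ⊓ stv ι x s.1 s.2.1 s.2.2 with hR
    set b : A := prj (mE A) c ⊓ Rᶜ with hb
    have hb0 : b ≠ ⊥ := by
      intro h
      apply hcon
      rw [← compl_compl R, le_compl_iff_disjoint_right, disjoint_iff]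
      exact h
    have h1 : c ⊓ mE A b ≠ ⊥ := by
      intro h
      apply hb0
      have h2 := ((prj_bot hce (c ⊓ mE A b)).2 h).symm.trans (prj_inf hce c b)
      rw [inf_eq_right.2 (inf_le_left : b ≤ prj (mE A) c)] at h2
      exact h2.symm
    have h2 : ¬ ∀ c' ≤ c ⊓ mE A b, ∀ t z, itp (mE A) (lp t) c' x z ⊓ pos ι z = ⊥ := fun h =>
      hbad ⟨c ⊓ mE A b, inf_le_left.trans hc, h1, h⟩
    push Not at h2
    obtain ⟨c', hc', t, z, hne⟩ := h2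
    obtain ⟨τ, h3, h4, h5⟩ := htree A t c' x z
    obtain ⟨-, -, hitpc, -, -, -, -, -, -⟩ := hpi (lp t) ((hlp A).1 t)
    apply hne
    have h6 : itp (mE A) (lp t) c' x z ⊓ pos ι z ≤ R := by
      refine le_trans ?_ (le_iSup _ (t, τ, z))
      refine le_inf (inf_le_left.trans ?_) (le_inf (le_inf (inf_le_left.trans h4)
        (inf_le_left.trans h5)) inf_le_right)
      exact ((fo_iff hmx τ c' _).2 h3).trans (fo_mono hmx τ (hc'.trans inf_le_left))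
    have h7 : itp (mE A) (lp t) c' x z ⊓ pos ι z ≤ Rᶜ := by
      refine inf_le_left.trans ((hitpc c' x z).trans ?_)
      have h8 : lp t c' ≤ prj (mE A) c' := by
        rw [(hlp A).2.1 c']
        exact le_iSup (fun t => lp t c') t
      refine h8.trans ?_
      rw [prj_le hce]
      exact hc'.trans (inf_le_right.trans ((ce_le hce).2 inf_le_right))
    exact le_bot_iff.1 ((le_inf h6 h7).trans (inf_compl_eq_bot).le)

/-- The first values of `x` are decided. -/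
noncomputable def dec (x : ℕ → MC A) (n : ℕ) (τ : MX A) : A :=
  ⨅ i : Fin (n + 1), (fo τ (x i) ⊔ fo τ (x i)ᶜ)

/-- The weights for GAP. -/
noncomputable def Wt (ι : H1.RO Sw.{u} → A) (x : ℕ → MC A) (c₁ : MC A) (n m : ℕ) (t : List ℕ)
    (τ : MX A) (z : ℕ → A) (k : ℕ) (s' : List ℕ × MX A × (ℕ → A)) : A :=
  (⨆ l : {l : ℕ // m ≤ l ∧ k ≤ l},
    fo s'.2.1 (mG τ ⊓ agr (mE A) z x k ⊓ ND (t ++ [l.1]) ⊓ c₁)) ⊓ dec x n s'.2.1
      ⊓ stv ι x s'.1 s'.2.1 s'.2.2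

/-- splitting a condition according to the values of the first `x i`. -/
theorem split_dec {C : Type u} [CompleteBooleanAlgebra C] (x : ℕ → C) (n : ℕ) (c : C) :
    c ≤ ⨆ σ : Fin (n + 1) → Bool, c ⊓ ⨅ i : Fin (n + 1), (if σ i then x i else (x i)ᶜ) := by
  classical
  apply le_of_ae
  filter_upwards [ae_iSup (fun σ : Fin (n + 1) → Bool =>
      c ⊓ ⨅ i : Fin (n + 1), (if σ i then x i else (x i)ᶜ)),
    ae_all (fun σ : Fin (n + 1) → Bool =>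
      ae_iInf (fun i : Fin (n + 1) => (if σ i then x i else (x i)ᶜ)))] with h h1 h2 hc
  rw [h1]
  refine ⟨fun i => decide (x i ∈ h), ?_⟩
  rw [h.mem_inf, h2]
  refine ⟨hc, fun i => ?_⟩
  by_cases hx : x i ∈ h
  · simp [hx]
  · simp [hx, h.mem_compl]

section bool

variable {C : Type u} [CompleteBooleanAlgebra C]

theorem bool1 (f : A → C) (x' : C) (z' : A) (h : f z'ᶜ = (f z')ᶜ) (d e : C)
    (h1 : d ≤ x'ᶜ) (h2 : e ≤ (f z' ⊓ x') ⊔ ((f z')ᶜ ⊓ x'ᶜ)) : d ⊓ e ≤ d ⊓ f z'ᶜ := by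
  refine le_inf inf_le_left ?_
  rw [h]
  refine (inf_le_inf h1 h2).trans ?_
  rw [inf_sup_left]
  refine sup_le ?_ (inf_le_right.trans inf_le_left)
  have : x'ᶜ ⊓ (f z' ⊓ x') = ⊥ := by
    rw [inf_comm (f z'), ← inf_assoc, compl_inf_self, bot_inf_eq]
  rw [this]
  exact bot_le

end bool

theorem sup_wt (hmx : MxfStatement.{u}) (hnd : NdStatement.{u}) (ι : H1.RO Sw.{u} → A)
    (x : ℕ → MC A) (c₁ : MC A) (hHx : Hx ι x c₁) (n m : ℕ) (t : List ℕ) (τ : MX A) (z : ℕ → A)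
    (k : ℕ) : fo τ c₁ ⊓ itp (mE A) (lp t) (mG τ) x z ≤ ⨆ s', Wt ι x c₁ n m t τ z k s' := by
  have hce : IsCE (mE A) := mE_ce hnd
  have h1 : itp (mE A) (lp t) (mG τ) x z
      ≤ ⨆ l : {l : ℕ // m ≤ l ∧ k ≤ l},
        prj (mE A) (mG τ ⊓ agr (mE A) z x k ⊓ ND (t ++ [l.1])) := by
    refine (iInf_le _ k).trans ?_
    refine (iInf_le _ (max m k)).trans ?_
    refine iSup₂_le fun l hl => ?_
    exact le_iSup (fun l : {l : ℕ // m ≤ l ∧ k ≤ l} =>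
      prj (mE A) (mG τ ⊓ agr (mE A) z x k ⊓ ND (t ++ [l.1])))
      ⟨l, (le_max_left _ _).trans hl, (le_max_right _ _).trans hl⟩
  refine (inf_le_inf_left _ h1).trans ?_
  rw [inf_iSup_eq]
  refine iSup_le fun l => ?_
  set c : MC A := mG τ ⊓ agr (mE A) z x k ⊓ ND (t ++ [l.1]) ⊓ c₁ with hc
  have h2 : fo τ c₁ ⊓ prj (mE A) (mG τ ⊓ agr (mE A) z x k ⊓ ND (t ++ [l.1])) ≤ prj (mE A) c := by
    have h3 := prj_inf hce (mG τ ⊓ agr (mE A) z x k ⊓ ND (t ++ [l.1])) (fo τ c₁)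
    rw [inf_comm]
    refine h3.ge.trans (prj_mono hce ?_)
    refine le_inf inf_le_left ?_
    refine le_trans ?_ (fo_le hmx τ c₁)
    exact le_inf inf_le_right (inf_le_left.trans (inf_le_left.trans inf_le_left))
  refine h2.trans ((prj_mono hce (split_dec x n c)).trans ?_)
  refine (prj_iSup hce _).le.trans (iSup_le fun σ => ?_)
  set cσ : MC A := c ⊓ ⨅ i : Fin (n + 1), (if σ i then x i else (x i)ᶜ) with hcσ
  refine (hHx cσ (inf_le_left.trans inf_le_right)).trans (iSup_le fun s' => ?_)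
  refine le_trans ?_ (le_iSup _ s')
  refine le_inf (le_inf ?_ ?_) inf_le_right
  · refine inf_le_left.trans ?_
    refine le_trans ?_ (le_iSup _ l)
    exact fo_mono hmx _ inf_le_left
  · refine inf_le_left.trans (le_iInf fun i => ?_)
    have h4 : cσ ≤ (if σ i then x i else (x i)ᶜ) := inf_le_right.trans (iInf_le _ i)
    by_cases hσ : σ i = true
    · rw [if_pos hσ] at h4
      exact (fo_mono hmx _ h4).trans le_sup_left
    · rw [if_neg hσ] at h4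
      exact (fo_mono hmx _ h4).trans le_sup_right

/-- A piece of a weight below a good next state. -/
theorem step_le (hitp : ItpStatement.{u}) (hlp : LpStatement.{u}) (hmx : MxfStatement.{u})
    (hnd : NdStatement.{u}) (ι : H1.RO Sw.{u} → A) (x : ℕ → MC A) (c₁ : MC A)
    (t t' : List ℕ) (τ τ' : MX A) (z z' : ℕ → A) (k l : ℕ) (S : Set ℕ) (n₀ : ℕ) (E : A)
    (h1 : E ≤ fo τ' (mG τ ⊓ agr (mE A) z x k ⊓ ND (t ++ [l]) ⊓ c₁))
    (h2 : E ≤ stv ι x t' τ' z') (h3 : ∀ i ∈ S, n₀ ≤ i → E ≤ z i) (h4 : ∀ i ∈ S, k ≤ i → E ≤ z' i) :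
    (E ≠ ⊥ → t ++ [l] <+: t') ∧ E ≤ fo τ' c₁ ∧ E ≤ (MQ A).le τ' τ ∧
      ∀ i ∈ S, n₀ ≤ i → E ≤ z' i := by
  have hce : IsCE (mE A) := mE_ce hnd
  obtain ⟨-, -, -, -, hpi⟩ := hitp A (MC A) (mE A) hce
  obtain ⟨-, -, hp1, -, hp2, hp3, -, -, -⟩ := hpi (lp t') ((hlp A).1 t')
  have hI : E ≤ itp (mE A) (lp t') (mG τ') x z' := h2.trans (inf_le_left.trans inf_le_right)
  have hc : ∀ d : MC A, fo τ' (mG τ ⊓ agr (mE A) z x k ⊓ ND (t ++ [l]) ⊓ c₁) ≤ fo τ' d →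
      mG τ' ⊓ mE A E ≤ d := by
    intro d hd
    exact (inf_comm _ _).le.trans ((fo_iff hmx τ' d E).1 (h1.trans hd))
  have hEI : itp (mE A) (lp t') (mG τ' ⊓ mE A E) x z' = E :=
    (hp2 _ _ _ _).trans (inf_eq_right.2 hI)
  refine ⟨fun hE => ?_, ?_, ?_, ?_⟩
  · have g1 : mG τ' ⊓ mE A E ≤ ND (t ++ [l]) :=
      hc _ (fo_mono hmx τ' (inf_le_left.trans inf_le_right))
    refine (hlp A).2.2 t' (t ++ [l]) _ g1 ?_
    intro h
    apply hE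
    rw [← hEI]
    exact le_bot_iff.1 ((hp1 _ _ _).trans h.le)
  · exact h1.trans (fo_mono hmx τ' inf_le_right)
  · rw [← (hmx A).2.2.2.2.2.2 τ' τ]
    exact h1.trans (fo_mono hmx τ' (inf_le_left.trans (inf_le_left.trans inf_le_left)))
  · intro i hi hn
    rcases le_or_gt k i with hk | hk
    · exact h4 i hi hk
    · have g1 : mG τ' ⊓ mE A E ≤ agr (mE A) z x k :=
        hc _ (fo_mono hmx τ' (inf_le_left.trans (inf_le_left.trans inf_le_right)))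
      have g2 := hp3 _ x z' z k g1
      rw [hEI] at g2
      have g3 : E ≤ (z i ⊓ z' i) ⊔ ((z i)ᶜ ⊓ (z' i)ᶜ) := g2.trans ((iInf_le _ i).trans
        (iInf_le _ hk))
      have g4 := h3 i hi hn
      calc E ≤ ((z i ⊓ z' i) ⊔ ((z i)ᶜ ⊓ (z' i)ᶜ)) ⊓ z i := le_inf g3 g4
        _ ≤ z' i := by
          rw [inf_sup_right]
          refine sup_le (inf_le_left.trans inf_le_right) ?_
          have : (z i)ᶜ ⊓ (z' i)ᶜ ⊓ z i = ⊥ := by
            rw [inf_right_comm, compl_inf_self, bot_inf_eq]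
          rw [this]
          exact bot_le

/-- A tree which decides `x i` negatively contradicts an interpretation with `z i`. -/
theorem neg_contra (hitp : ItpStatement.{u}) (hlp : LpStatement.{u}) (hmx : MxfStatement.{u})
    (hnd : NdStatement.{u}) (x : ℕ → MC A) (t : List ℕ) (τ : MX A) (z : ℕ → A) (i : ℕ) :
    fo τ (x i)ᶜ ⊓ itp (mE A) (lp t) (mG τ) x z ⊓ z i = ⊥ := by
  have hce : IsCE (mE A) := mE_ce hnd
  obtain ⟨-, -, -, -, hpi⟩ := hitp A (MC A) (mE A) hce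
  obtain ⟨-, hpm, -, -, hp2, -, -, -, -⟩ := hpi (lp t) ((hlp A).1 t)
  have hlin := ((hlp A).1 t).lin
  set b := fo τ (x i)ᶜ ⊓ itp (mE A) (lp t) (mG τ) x z ⊓ z i with hb
  have h1 : mG τ ⊓ mE A b ≤ (x i)ᶜ := by
    exact (inf_comm _ _).le.trans ((fo_iff hmx τ (x i)ᶜ b).1 (inf_le_left.trans inf_le_left))
  have h2 : itp (mE A) (lp t) (mG τ ⊓ mE A b) x z = b :=
    (hp2 _ _ _ _).trans (inf_eq_right.2 (inf_le_left.trans inf_le_right))
  have h3 : b ≤ lp t ((mG τ ⊓ mE A b) ⊓ agr (mE A) z x (i + 1)) :=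
    h2.ge.trans (iInf_le _ (i + 1))
  have h4 : (mG τ ⊓ mE A b) ⊓ agr (mE A) z x (i + 1) ≤ (mG τ ⊓ mE A b) ⊓ mE A (z i)ᶜ :=
    bool1 (mE A) (x i) (z i) (hce.compl _) _ _ h1
      ((iInf_le _ i).trans (iInf_le _ (Nat.lt_succ_self i)))
  have h5 : b ≤ (z i)ᶜ :=
    h3.trans ((hpm _ _ h4).trans ((hlin _ _).le.trans inf_le_right))
  exact le_bot_iff.1 ((le_inf h5 inf_le_right).trans (compl_inf_self (z i)).le)

/-- The value of a state. -/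
noncomputable def gdv (ι : H1.RO Sw.{u} → A) (x : ℕ → MC A) (c₁ : MC A) (N : Set El.{u})
    (s : Sw.{u}) (n₀ : ℕ) (t : List ℕ) (τ : MX A) (z : ℕ → A) : A :=
  ι (pr s) ⊓ gen A N ⊓ fo τ c₁ ⊓ stv ι x t τ z ⊓ ⨅ i : {i : ℕ // i ∈ s.S ∧ n₀ ≤ i}, z i.1

end

theorem countable_in {N : Set El.{u}} (hN : N.Countable) (T : Type u) :
    Countable {t : T // In N t} := by
  have := hN.to_subtype
  refine Function.Injective.countable
    (f := fun t : {t : T // In N t} => (⟨⟨T, t.1⟩, t.2⟩ : N)) ?_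
  rintro ⟨a, ha⟩ ⟨b, hb⟩ h
  have h2 : (⟨T, a⟩ : El.{u}) = ⟨T, b⟩ := congrArg Subtype.val h
  exact Subtype.ext (eq_of_heq (Sigma.mk.inj h2).2)

theorem club_all {J : Type v} [Countable J] {p : J → Set El.{u} → Prop}
    (h : ∀ j, ∀ᶠ N in club, p j N) : ∀ᶠ N in club, ∀ j, p j N := by
  rcases isEmpty_or_nonempty J with hJ | hJ
  · exact Filter.Eventually.of_forall fun N j => isEmptyElim j
  · obtain ⟨e, he⟩ := exists_surjective_nat J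
    filter_upwards [all_club.2.2.1 (fun n => p (e n)) fun n => h (e n)] with N hN j
    obtain ⟨n, rfl⟩ := he j
    exact hN n

theorem pr_disj {S : Type u} [Preorder S] {s t : S} (h : ∀ r ≤ s, ¬ r ≤ t) :
    pr s ⊓ pr t = (⊥ : H1.RO S) := by
  by_contra hne
  obtain ⟨-, hpr, -, -, h5, -, -, -⟩ := all_roapi S
  obtain ⟨r, hr⟩ := h5 _ hne
  have h1 : pr r ≤ ⨆ n ∈ ({s} : Set S), pr n := by
    rw [iSup_singleton]; exact hr.trans inf_le_left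
  obtain ⟨r', hr', n, hn, h2⟩ := (hpr r {s}).1 h1 r le_rfl
  obtain rfl : n = s := hn
  have h3 : pr r ≤ ⨆ n ∈ ({t} : Set S), pr n := by
    rw [iSup_singleton]; exact hr.trans inf_le_right
  obtain ⟨r'', hr'', m, hm, h4⟩ := (hpr r {t}).1 h3 r' hr'
  obtain rfl : m = t := hm
  exact h r'' (hr''.trans h2) h4

/-- Everything `N` has to satisfy. -/
structure NN {A : Type u} [CompleteBooleanAlgebra A] (ι : H1.RO Sw.{u} → A) (x : ℕ → MC A)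
    (c₁ : MC A) (s₀ : Sw.{u}) (N : Set El.{u}) : Prop where
  cnt : N.Countable
  sg : ∃ s : Sw.{u}, SG N s ∧ ι (pr s) ⊓ (gen A N ⊓ prj (mE A) c₁) ≠ ⊥
  gap : ∀ s : Sw.{u}, SG N s →
      ∀ (w : ℕ → (List ℕ × MX A × (ℕ → A)) → A) (b : ℕ → (List ℕ × MX A × (ℕ → A)) → ℕ → A),
      In N w → In N b → (∀ k t, w k t ≤ pos ι (b k t)) →
        ∀ᶠ g in ae A, ι (pr s) ∈ g → gen A N ∈ g → (∀ k, (⨆ t, w k t) ∈ g) →
          ∀ m, ∃ k, m ≤ k ∧ ∃ t, In N t ∧ w k t ∈ g ∧ ∀ n ∈ s.S, k ≤ n → b k t n ∈ g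
  ngT : ∀ᶠ g in ae A, gen A N ∈ g → ∀ φ : (List ℕ × MX A × (ℕ → A)) → A, In N φ →
      (⨆ t, φ t) ∈ g → ∃ t, In N t ∧ φ t ∈ g
  ngS : ∀ᶠ g in ae A, gen A N ∈ g → ∀ φ : Sw.{u} → A, In N φ →
      (⨆ t, φ t) ∈ g → ∃ t, In N t ∧ φ t ∈ g
  dmr : ∀ s t : Sw.{u}, SG N s → In N t → s ≤ t ∨ ∀ r ≤ s, ¬ r ≤ t
  wt : ∀ (n m : ℕ) (t : List ℕ) (τ : MX A) (z : ℕ → A), In N τ → In N z →
      In N (Wt ι x c₁ n m t τ z)
  bz : ∀ z : ℕ → A, In N z → In N (fun B : Sw.{u} => ι (pr B) ⊓ ⨅ n ∈ B.S, z n)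
  p1 : ∀ t : List ℕ × MX A × (ℕ → A), In N t → In N t.2.1
  p2 : ∀ t : List ℕ × MX A × (ℕ → A), In N t → In N t.2.2
  b₀ : In N (fun (_ : ℕ) (t : List ℕ × MX A × (ℕ → A)) => t.2.2)
  φ₀ : In N (fun t : List ℕ × MX A × (ℕ → A) => fo t.2.1 c₁ ⊓ stv ι x t.1 t.2.1 t.2.2)

theorem nn (hng : NgStatement.{u}) (hgap : GapStatement.{u}) (hsgs : SgsStatement.{u})
    {A : Type u} [CompleteBooleanAlgebra A] (ι : H1.RO Sw.{u} → A) (hι : IsCE ι) (hpe : PE ι)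
    (hPP : PP ι) (x : ℕ → MC A) (c₁ : MC A) (s₀ : Sw.{u}) (hs₀ : ι (pr s₀) ⊓ prj (mE A) c₁ ≠ ⊥) :
    ∃ N, NN ι x c₁ s₀ N := by
  obtain ⟨hne, hcnt, -, hconst, -, hf1, hf2, -, -, -, -⟩ := all_club.{u}
  have e1 := all_xnz Sw.{u} hsgs.1 A ι hι hpe
  have e2 : ∀ᶠ N in club, ∀ s : Sw.{u}, In N s → ∃ s' ≤ s, SG N s' := hsgs.1
  have e3 := hgap A ι hι hpe hPP (List ℕ × MX A × (ℕ → A))
  have e4 := hng A (List ℕ × MX A × (ℕ → A))
  have e5 := hng A Sw.{u}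
  have e6 := (all_dmr Sw.{u}).2.2
  have e7 : ∀ᶠ N in club, ∀ j : ℕ × ℕ × List ℕ, ∀ (τ : MX A) (z : ℕ → A), In N τ → In N z →
      In N (Wt ι x c₁ j.1 j.2.1 j.2.2 τ z) :=
    club_all fun j => hf2 (MX A) (ℕ → A) _ (fun τ z => Wt ι x c₁ j.1 j.2.1 j.2.2 τ z)
  have e8 := hf1 (ℕ → A) (Sw.{u} → A) (fun z => fun B : Sw.{u} => ι (pr B) ⊓ ⨅ n ∈ B.S, z n)
  have e9 := hf1 (List ℕ × MX A × (ℕ → A)) (MX A) (fun t => t.2.1)
  have e10 := hf1 (List ℕ × MX A × (ℕ → A)) (ℕ → A) (fun t => t.2.2)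
  have e11 := hconst (ℕ → (List ℕ × MX A × (ℕ → A)) → (ℕ → A)) (fun _ t => t.2.2)
  have e12 := hconst ((List ℕ × MX A × (ℕ → A)) → A)
    (fun t => fo t.2.1 c₁ ⊓ stv ι x t.1 t.2.1 t.2.2)
  have e13 := hconst A (prj (mE A) c₁)
  have e14 := hconst Sw.{u} s₀
  have key : ∀ᶠ N in club, NN ι x c₁ s₀ N := by
    filter_upwards [hcnt, e1, e2, e3, e4, e5, e6, e7, e8, e9, e10, e11, e12, e13, e14] with
      N h0 h1 h2 h3 h4 h5 h6 h7 h8 h9 h10 h11 h12 h13 h14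
    refine ⟨h0, ?_, h3, h4, h5, h6, fun n m t τ z hτ hz => h7 (n, m, t) τ z hτ hz, h8, h9, h10,
      h11, h12⟩
    obtain ⟨t, -, ht, h⟩ := h1 (prj (mE A) c₁) h13 s₀ h14 hs₀
    obtain ⟨s, hs, hsg⟩ := h2 t ht
    exact ⟨s, hsg, h s hs hsg⟩
  obtain ⟨N, -, -, h⟩ := hne _ key ∅ Set.countable_empty
  exact ⟨N, h⟩

theorem main_mil (hitp : ItpStatement.{u}) (hng : NgStatement.{u}) (hgap : GapStatement.{u})
    (hlp : LpStatement.{u}) (hmx : MxfStatement.{u})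
    (hnd : NdStatement.{u}) (hamf : AmfStatement.{u, u}) (hsgs : SgsStatement.{u})
    {A : Type u} [CompleteBooleanAlgebra A] (ι : H1.RO Sw.{u} → A) (hι : IsCE ι) (hpe : PE ι)
    (hPP : PP ι) (x : ℕ → MC A) (c₁ : MC A) (hc₁ : c₁ ≠ ⊥) (hH : Hx ι x c₁) :
    ∃ p : MC A, p ≠ ⊥ ∧ p ≤ c₁ ∧ p ≤ pos (fun x => mE A (ι x)) x := by
  have hce : IsCE (mE A) := mE_ce hnd
  -- a first condition
  obtain ⟨s₀, hs₀⟩ : ∃ s₀ : Sw.{u}, ι (pr s₀) ⊓ prj (mE A) c₁ ≠ ⊥ := by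
    by_contra hcon
    push Not at hcon
    have h1 : (⨆ B : Sw.{u}, ι (pr B)) = ⊤ := by
      refine top_le_iff.1 ?_
      rw [← hPP (fun _ => ⊥)]
      exact sup_le (iSup_mono fun B => inf_le_left) (iSup_mono fun B => inf_le_left)
    apply hc₁
    rw [← prj_bot hce, ← top_inf_eq (prj (mE A) c₁), ← h1, iSup_inf_eq]
    exact le_bot_iff.1 (iSup_le fun B => (hcon B).le)
  obtain ⟨N, hN⟩ := nn hng hgap hsgs ι hι hpe hPP x c₁ s₀ hs₀
  obtain ⟨s, hsg, hs⟩ := hN.sg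
  have : Countable {τ : MX A // In N τ} := countable_in hN.cnt _
  have : Countable {z : ℕ → A // In N z} := countable_in hN.cnt _
  -- the root
  obtain ⟨t₀, τ₀, z₀, n₀, hτ₀, hz₀, hroot⟩ : ∃ (t₀ : List ℕ) (τ₀ : MX A) (z₀ : ℕ → A) (n₀ : ℕ),
      In N τ₀ ∧ In N z₀ ∧ gdv ι x c₁ N s n₀ t₀ τ₀ z₀ ≠ ⊥ := by
    obtain ⟨g, hg, h1, h2, h3⟩ := exists_of_ae (hN.ngT.and (hN.ngS.and
      (ae_all fun z : {z : ℕ → A // In N z} => ae_all fun n₀ : ℕ =>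
        ae_iInf fun i : {i : ℕ // i ∈ s.S ∧ n₀ ≤ i} => z.1 i.1))) hs
    have hg1 : ι (pr s) ∈ g := g.mono inf_le_left hg
    have hg2 : gen A N ∈ g := g.mono (inf_le_right.trans inf_le_left) hg
    have hg3 : prj (mE A) c₁ ∈ g := g.mono (inf_le_right.trans inf_le_right) hg
    obtain ⟨⟨t₀, τ₀, z₀⟩, hs', hφ⟩ := h1 hg2 _ hN.φ₀ (g.mono (hH c₁ le_rfl) hg3)
    have hz₀ : In N z₀ := hN.p2 _ hs'
    have hτ₀ : In N τ₀ := hN.p1 _ hs'
    have hpos : pos ι z₀ ∈ g := g.mono (inf_le_right.trans inf_le_right) hφ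
    obtain ⟨B, hB, hBg⟩ := h2 hg2 _ (hN.bz z₀ hz₀) hpos
    have hsB : s ≤ B := by
      rcases hN.dmr s B hsg hB with h | h
      · exact h
      · exfalso
        have h4 : ι (pr s ⊓ pr B) ∈ g :=
          g.mono (ce_inf hι _ _).ge (g.mem_inf.2 ⟨hg1, g.mono inf_le_left hBg⟩)
        rw [pr_disj h, ce_bot hι] at h4
        exact g.not_bot h4
    obtain ⟨n₀, hn₀⟩ : ∃ n₀, ∀ i ∈ s.S, n₀ ≤ i → i ∈ B.S := by
      have hfin : (s.S \ B.S).Finite := hsB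
      obtain ⟨b, hb⟩ := hfin.bddAbove
      refine ⟨b + 1, fun i hi hbi => ?_⟩
      by_contra hiB
      have := hb (show i ∈ s.S \ B.S from ⟨hi, hiB⟩)
      omega
    refine ⟨t₀, τ₀, z₀, n₀, hτ₀, hz₀, ?_⟩
    intro hbot
    have : gdv ι x c₁ N s n₀ t₀ τ₀ z₀ ∈ g := by
      refine g.mem_inf.2 ⟨g.mem_inf.2 ⟨g.mem_inf.2 ⟨g.mem_inf.2 ⟨hg1, hg2⟩,
        g.mono inf_le_left hφ⟩, g.mono inf_le_right hφ⟩, ?_⟩
      refine (h3 ⟨z₀, hz₀⟩ n₀).2 fun i => ?_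
      exact g.mono (inf_le_right.trans (iInf₂_le i.1 (hn₀ i.1 i.2.1 i.2.2))) hBg
    rw [hbot] at this
    exact g.not_bot this
  -- fusion
  obtain ⟨p, P, hp, hae⟩ := hamf A
    (fun _ => List ℕ × {τ : MX A // In N τ} × {z : ℕ → A // In N z})
    (fun _ s => s.1) (fun _ s => s.2.1.1) (fun _ r => gdv ι x c₁ N s n₀ r.1 r.2.1.1 r.2.2.1)
    (fun n _ s' => dec x n s'.2.1.1)
    (fun n r => by
      refine inf_le_left.trans (inf_le_right.trans (inf_le_left.trans inf_le_left)))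
    (by
      rintro n ⟨t, ⟨τ, hτ⟩, ⟨z, hz⟩⟩ m
      apply le_of_ae
      have a1 := hN.gap s hsg (Wt ι x c₁ n m t τ z) (fun _ t => t.2.2) (hN.wt n m t τ z hτ hz) hN.b₀
        (fun k t' => inf_le_right.trans inf_le_right)
      have a2 := ae_all fun r : List ℕ × {τ : MX A // In N τ} × {z : ℕ → A // In N z} =>
        ae_all fun k : ℕ => ae_iSup fun l : {l : ℕ // m ≤ l ∧ k ≤ l} =>
          fo r.2.1.1 (mG τ ⊓ agr (mE A) z x k ⊓ ND (t ++ [l.1]) ⊓ c₁)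
      have a3 := ae_all fun z' : {z : ℕ → A // In N z} => ae_all fun k : ℕ =>
        ae_iInf fun i : {i : ℕ // i ∈ s.S ∧ k ≤ i} => z'.1 i.1
      filter_upwards [a1, a2, a3] with g g1 g2 g3 hg
      have hg1 : ι (pr s) ∈ g :=
        g.mono (inf_le_left.trans (inf_le_left.trans (inf_le_left.trans inf_le_left))) hg
      have hg2 : gen A N ∈ g :=
        g.mono (inf_le_left.trans (inf_le_left.trans (inf_le_left.trans inf_le_right))) hg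
      have hg3 : fo τ c₁ ∈ g := g.mono (inf_le_left.trans (inf_le_left.trans inf_le_right)) hg
      have hg4 : stv ι x t τ z ∈ g := g.mono (inf_le_left.trans inf_le_right) hg
      have hg5 : itp (mE A) (lp t) (mG τ) x z ∈ g := g.mono (inf_le_left.trans inf_le_right) hg4
      obtain ⟨k, -, ⟨t', τ', z'⟩, hIn, hw, hzz⟩ := g1 hg1 hg2
        (fun k => g.mono (sup_wt hmx hnd ι x c₁ hH n m t τ z k) (g.mem_inf.2 ⟨hg3, hg5⟩)) 0
      have hτ' : In N τ' := hN.p1 _ hIn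
      have hz' : In N z' := hN.p2 _ hIn
      have w1 := g.mono (inf_le_left.trans inf_le_left) hw
      have w2 : dec x n τ' ∈ g := g.mono (inf_le_left.trans inf_le_right) hw
      have w3 : stv ι x t' τ' z' ∈ g := g.mono inf_le_right hw
      obtain ⟨⟨l, hl, hkl⟩, hlg⟩ := (g2 (t', ⟨τ', hτ'⟩, ⟨z', hz'⟩) k).1 w1
      have w4 : (⨅ i : {i : ℕ // i ∈ s.S ∧ k ≤ i}, z' i.1) ∈ g :=
        (g3 ⟨z', hz'⟩ k).2 fun i => hzz i.1 i.2.1 i.2.2
      set E : A := fo τ' (mG τ ⊓ agr (mE A) z x k ⊓ ND (t ++ [l]) ⊓ c₁) ⊓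
        (gdv ι x c₁ N s n₀ t τ z ⊓ (dec x n τ' ⊓ (stv ι x t' τ' z' ⊓
          ⨅ i : {i : ℕ // i ∈ s.S ∧ k ≤ i}, z' i.1))) with hE
      have hEg : E ∈ g := g.mem_inf.2 ⟨hlg, g.mem_inf.2 ⟨hg, g.mem_inf.2 ⟨w2, g.mem_inf.2
        ⟨w3, w4⟩⟩⟩⟩
      have hE0 : E ≠ ⊥ := by
        intro h
        rw [h] at hEg
        exact g.not_bot hEg
      have E1 : E ≤ gdv ι x c₁ N s n₀ t τ z := inf_le_right.trans inf_le_left
      have E2 : E ≤ dec x n τ' := inf_le_right.trans (inf_le_right.trans inf_le_left)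
      have E3 : E ≤ stv ι x t' τ' z' :=
        inf_le_right.trans (inf_le_right.trans (inf_le_right.trans inf_le_left))
      have E4 : E ≤ ⨅ i : {i : ℕ // i ∈ s.S ∧ k ≤ i}, z' i.1 :=
        inf_le_right.trans (inf_le_right.trans (inf_le_right.trans inf_le_right))
      obtain ⟨s1, s2, s3, s4⟩ := step_le hitp hlp hmx hnd ι x c₁ t t' τ τ' z z' k l s.S n₀ E
        inf_le_left E3
        (fun i hi hn => E1.trans (inf_le_right.trans (iInf_le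
          (fun i : {i : ℕ // i ∈ s.S ∧ n₀ ≤ i} => z i.1) ⟨i, hi, hn⟩)))
        (fun i hi hk => E4.trans (iInf_le
          (fun i : {i : ℕ // i ∈ s.S ∧ k ≤ i} => z' i.1) ⟨i, hi, hk⟩))
      refine g.mono ?_ hEg
      refine le_trans ?_ (le_iSup₂_of_le (t', ⟨τ', hτ'⟩, ⟨z', hz'⟩) ⟨l, hl, s1 hE0⟩ le_rfl)
      refine le_inf (le_inf (le_inf (le_inf (le_inf ?_ s2) E3) (le_iInf fun i => s4 i.1 i.2.1 i.2.2))
        E2) s3
      exact E1.trans (inf_le_left.trans (inf_le_left.trans inf_le_left)))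
    (t₀, ⟨τ₀, hτ₀⟩, ⟨z₀, hz₀⟩) (gdv ι x c₁ N s n₀ t₀ τ₀ z₀) le_rfl
  have hp0 : p ≠ ⊥ := by
    intro h
    apply hroot
    rw [← hp]
    exact (prj_bot hce p).2 h
  have hgd1 : ∀ (t : List ℕ) (τ : MX A) (z : ℕ → A), gdv ι x c₁ N s n₀ t τ z ≤ ι (pr s) := fun t τ z =>
    inf_le_left.trans (inf_le_left.trans (inf_le_left.trans inf_le_left))
  have hgd2 : ∀ (t : List ℕ) (τ : MX A) (z : ℕ → A), gdv ι x c₁ N s n₀ t τ z ≤ fo τ c₁ := fun t τ z =>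
    inf_le_left.trans (inf_le_left.trans inf_le_right)
  refine ⟨p, hp0, ?_, ?_⟩
  · apply le_of_ae
    filter_upwards [hae] with h hh hph
    obtain ⟨ξ, h0, h1⟩ := hh hph
    obtain ⟨-, h2, h3, -⟩ := h1 0
    refine h.mono (fo_le hmx (ξ 0).2.1.1 c₁) (h.mem_inf.2 ⟨?_, h3⟩)
    exact h.mono ((ce_le hce).2 (hgd2 _ _ _)) h2
  · -- the element of the generic ultrafilter
    have hinf : {i | i ∈ s.S ∧ n₀ ≤ i}.Infinite := by
      have := s.infinite.sdiff (Set.finite_Iio n₀)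
      refine this.mono ?_
      rintro i ⟨hi, hi2⟩
      exact ⟨hi, not_lt.1 hi2⟩
    let B : Sw.{u} := ⟨⟨{i | i ∈ s.S ∧ n₀ ≤ i}⟩, hinf⟩
    have hB : ∀ i, i ∈ B.S ↔ i ∈ s.S ∧ n₀ ≤ i := fun i => Iff.rfl
    have hsB : s ≤ B := by
      show (s.S \ B.S).Finite
      refine (Set.finite_Iio n₀).subset ?_
      rintro i ⟨hi, hi2⟩
      rw [hB] at hi2
      by_contra hcon
      exact hi2 ⟨hi, not_lt.1 hcon⟩
    have hprs : pr s ≤ pr B := (all_roapi Sw.{u}).2.2.2.2.2.1 s B hsB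
    have key : p ≤ mE A (ι (pr s)) ⊓ ⨅ i : {i : ℕ // i ∈ s.S ∧ n₀ ≤ i}, x i.1 := by
      apply le_of_ae
      filter_upwards [hae, ae_iInf fun i : {i : ℕ // i ∈ s.S ∧ n₀ ≤ i} => x i.1] with h hh hx hph
      obtain ⟨ξ, h0, h1⟩ := hh hph
      refine h.mem_inf.2 ⟨h.mono ((ce_le hce).2 (hgd1 _ _ _)) (h1 0).2.1, hx.2 fun i => ?_⟩
      obtain ⟨i, hi, hn⟩ := i
      have hed := (h1 i).2.2.2.1
      obtain ⟨-, h2, h3, -⟩ := h1 (i + 1)
      set r := ξ (i + 1) with hr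
      have h4 : dec x i r.2.1.1 ≤ fo r.2.1.1 (x i) ⊔ fo r.2.1.1 (x i)ᶜ :=
        iInf_le (fun j : Fin (i + 1) => fo r.2.1.1 (x j) ⊔ fo r.2.1.1 (x j)ᶜ) ⟨i, Nat.lt_succ_self i⟩
      have h5 : mE A (fo r.2.1.1 (x i)) ⊔ mE A (fo r.2.1.1 (x i)ᶜ) ∈ h := by
        rw [← ce_sup hce]
        exact h.mono ((ce_le hce).2 h4) hed
      rcases h.mem_sup.1 h5 with h6 | h6
      · exact h.mono (fo_le hmx _ _) (h.mem_inf.2 ⟨h6, h3⟩)
      · exfalso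
        have h7 : mE A (fo r.2.1.1 (x i)ᶜ ⊓ gdv ι x c₁ N s n₀ r.1 r.2.1.1 r.2.2.1) ∈ h := by
          rw [ce_inf hce]
          exact h.mem_inf.2 ⟨h6, h2⟩
        have h8 : fo r.2.1.1 (x i)ᶜ ⊓ gdv ι x c₁ N s n₀ r.1 r.2.1.1 r.2.2.1 = ⊥ := by
          refine le_bot_iff.1 (le_trans ?_ (neg_contra hitp hlp hmx hnd x r.1 r.2.1.1 r.2.2.1 i).le)
          refine le_inf (inf_le_inf_left _ ?_) (inf_le_right.trans (inf_le_right.trans (iInf_le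
            (fun i : {i : ℕ // i ∈ s.S ∧ n₀ ≤ i} => r.2.2.1 i.1) ⟨i, hi, hn⟩)))
          exact inf_le_left.trans (inf_le_right.trans (inf_le_left.trans inf_le_right))
        rw [h8, ce_bot hce] at h7
        exact h.not_bot h7
    refine key.trans (le_trans ?_ (le_iSup _ B))
    refine le_inf (inf_le_left.trans ((ce_le hce).2 ((ce_le hι).2 hprs))) (le_iInf₂ fun i hi => ?_)
    exact inf_le_right.trans (iInf_le (fun i : {i : ℕ // i ∈ s.S ∧ n₀ ≤ i} => x i.1)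
      ⟨i, (hB i).1 hi⟩)

/-- PPMIL: Miller forcing preserves the P-point. -/
theorem ppmil (hlb : LbStatement.{u}) (hitp : ItpStatement.{u}) (_hdisj : DisjStatement.{u})
    (hng : NgStatement.{u}) (hgap : GapStatement.{u}) (htree : TreeStatement.{u})
    (hlp : LpStatement.{u}) (hmx : MxfStatement.{u}) (hnd : NdStatement.{u})
    (hamf : AmfStatement.{u, u}) (hsgs : SgsStatement.{u}) : PpmilStatement.{u} := by
  intro A _ ι hι hpe hPP x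
  by_contra hne
  set κ : H1.RO Sw.{u} → MC A := fun x => mE A (ι x) with hκ
  have hc₀ : (pos κ x ⊔ pos κ (cpl x))ᶜ ≠ ⊥ := by
    intro h
    exact hne (compl_eq_bot.1 h)
  obtain ⟨c₁, h1, h2, h3⟩ := dicho hlb hitp htree hlp hmx hnd ι hPP x _ hc₀
  rcases h3 with h3 | h3
  · obtain ⟨p, hp, hp1, hp2⟩ := main_mil hitp hng hgap hlp hmx hnd hamf hsgs ι hι hpe hPP x c₁ h2 h3
    apply hp
    have h4 : p ≤ pos κ x ⊔ pos κ (cpl x) := hp2.trans le_sup_left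
    exact le_bot_iff.1 ((le_inf h4 (hp1.trans h1)).trans (inf_compl_eq_bot).le)
  · obtain ⟨p, hp, hp1, hp2⟩ := main_mil hitp hng hgap hlp hmx hnd hamf hsgs ι hι hpe hPP (cpl x) c₁
      h2 h3
    apply hp
    have h4 : p ≤ pos κ x ⊔ pos κ (cpl x) := hp2.trans le_sup_right
    exact le_bot_iff.1 ((le_inf h4 (hp1.trans h1)).trans (inf_compl_eq_bot).le)

end Pool.Agent.Lib.MP_6d445e_gt.H96
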